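import Mathlib

/-!
# The group generated by horizontal class transpositions has infinite width

A product of `n` horizontal class transpositions moves the integers by at most `3 ^ n` different
amounts: every factor moves an integer by `0`, `d` or `-d`, with `d` depending on the factor only.
On the other hand the permutation of the integers reversing every block
`{2 m q, ..., 2 m q + 2 m - 1}` is a product of horizontal class transpositions of modulus `2 m`,
and it moves integers by at least `m` different amounts.
-/

namespace Pool.Agent.Results.MP_9704e3_al.InfiniteWidth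

/-- The map on the integers which adds `j - i` to the elements of the residue class `i (mod k)`,
subtracts `j - i` from the elements of the residue class `j (mod k)` and fixes all other
integers. -/
def swapFun (k i j : ℤ) (n : ℤ) : ℤ :=
  if n % k = i then n + (j - i) else if n % k = j then n - (j - i) else n

theorem swapFun_involutive {k i j : ℤ} (h0 : 0 ≤ i) (hij : i < j) (hjk : j < k) :
    Function.Involutive (swapFun k i j) := by
  intro n
  have hk : 0 < k := by omega
  unfold swapFun
  by_cases h1 : n % k = i
  · rw [if_pos h1]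
    have h2 : (n + (j - i)) % k = j := by
      have : n + (j - i) = j + k * (n / k) := by
        have := Int.emod_add_mul_ediv n k
        omega
      rw [this, Int.add_mul_emod_self_left]
      exact Int.emod_eq_of_lt (by omega) hjk
    rw [if_neg (by omega), if_pos h2]
    ring
  · rw [if_neg h1]
    by_cases h2 : n % k = j
    · rw [if_pos h2]
      have h3 : (n - (j - i)) % k = i := by
        have : n - (j - i) = i + k * (n / k) := by
          have := Int.emod_add_mul_ediv n k
          omega
        rw [this, Int.add_mul_emod_self_left]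
        exact Int.emod_eq_of_lt (by omega) (by omega)
      rw [if_pos h3]
      ring
    · rw [if_neg h2, if_neg h1, if_neg h2]

/-- The horizontal class transposition `τ_{i(k), j(k)}` (for `0 ≤ i < j < k`): the permutation of
the integers interchanging the residue classes `i (mod k)` and `j (mod k)` by translation and
fixing all other integers. -/
def classTransposition (k i j : ℤ) (h0 : 0 ≤ i) (hij : i < j) (hjk : j < k) : Equiv.Perm ℤ :=
  (swapFun_involutive h0 hij hjk).toPerm

/-- The set `H` of all horizontal class transpositions. -/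
def horizontal : Set (Equiv.Perm ℤ) :=
  {σ | ∃ (k i j : ℤ) (h0 : 0 ≤ i) (hij : i < j) (hjk : j < k),
    σ = classTransposition k i j h0 hij hjk}

/-- The group `CT_∞` generated by all horizontal class transpositions. -/
def CTinf : Subgroup (Equiv.Perm ℤ) := Subgroup.closure horizontal

theorem displacement {σ : Equiv.Perm ℤ} (hσ : σ ∈ horizontal) :
    ∃ d : ℤ, ∀ x, σ x - x ∈ ({0, d, -d} : Finset ℤ) := by
  obtain ⟨k, i, j, h0, hij, hjk, rfl⟩ := hσ
  refine ⟨j - i, fun x => ?_⟩
  have : classTransposition k i j h0 hij hjk x = swapFun k i j x := rfl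
  rw [this]
  unfold swapFun
  split_ifs <;> simp

theorem displacements (l : List (Equiv.Perm ℤ)) (hl : ∀ σ ∈ l, σ ∈ horizontal) :
    ∃ S : Finset ℤ, S.card ≤ 3 ^ l.length ∧ ∀ x, l.prod x - x ∈ S := by
  induction l with
  | nil => exact ⟨{0}, by simp, by simp⟩
  | cons σ l ih =>
    obtain ⟨S, hS, hx⟩ := ih (fun τ hτ => hl τ (List.mem_cons_of_mem _ hτ))
    obtain ⟨d, hd⟩ := displacement (hl σ List.mem_cons_self)
    refine ⟨(({0, d, -d} : Finset ℤ) ×ˢ S).image (fun p => p.1 + p.2), ?_, fun x => ?_⟩
    · refine Finset.card_image_le.trans ?_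
      rw [Finset.card_product, List.length_cons, pow_succ, mul_comm]
      exact Nat.mul_le_mul hS Finset.card_le_three
    · rw [Finset.mem_image]
      refine ⟨(σ (l.prod x) - l.prod x, l.prod x - x), ?_, ?_⟩
      · exact Finset.mem_product.2 ⟨hd _, hx x⟩
      · simp [List.prod_cons, Equiv.Perm.mul_apply]

/-- The product of the class transpositions `τ_{i(2m), 2m-1-i(2m)}` for `i < t`. -/
theorem exists_reversal (m : ℤ) (t : ℕ) (ht : (t : ℤ) ≤ m) :
    ∃ g ∈ CTinf, ∀ i : ℤ, 0 ≤ i → i < m →
      g i = if i < t then 2 * m - 1 - i else i := by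
  induction t with
  | zero =>
    refine ⟨1, one_mem _, fun i h0 _ => ?_⟩
    rw [if_neg (by push_cast; omega)]
    rfl
  | succ t ih =>
    have ht' : (t : ℤ) < m := by push_cast at ht; omega
    obtain ⟨g, hg, hgi⟩ := ih ht'.le
    have h1 : (0 : ℤ) ≤ t := by omega
    have h2 : (t : ℤ) < 2 * m - 1 - t := by omega
    have h3 : 2 * m - 1 - (t : ℤ) < 2 * m := by omega
    refine ⟨classTransposition (2 * m) t (2 * m - 1 - t) h1 h2 h3 * g,
      mul_mem (Subgroup.subset_closure ⟨_, _, _, h1, h2, h3, rfl⟩) hg, fun i h0 him => ?_⟩
    have key : ∀ y, classTransposition (2 * m) t (2 * m - 1 - t) h1 h2 h3 y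
        = swapFun (2 * m) t (2 * m - 1 - t) y := fun _ => rfl
    have hR : (if i < ((t + 1 : ℕ) : ℤ) then 2 * m - 1 - i else i)
        = if i ≤ (t : ℤ) then 2 * m - 1 - i else i := by
      push_cast
      by_cases h : i ≤ (t : ℤ)
      · rw [if_pos h, if_pos (by omega)]
      · rw [if_neg h, if_neg (by omega)]
    rw [Equiv.Perm.mul_apply, hgi i h0 him, key, hR]
    rcases lt_trichotomy i t with h | h | h
    · rw [if_pos h, if_pos h.le]
      have hy : (2 * m - 1 - i) % (2 * m) = 2 * m - 1 - i :=
        Int.emod_eq_of_lt (by omega) (by omega)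
      rw [swapFun, hy, if_neg (by omega), if_neg (by omega)]
    · subst h
      rw [if_neg (lt_irrefl _), if_pos le_rfl]
      have hy : (t : ℤ) % (2 * m) = t := Int.emod_eq_of_lt (by omega) (by omega)
      rw [swapFun, hy, if_pos rfl]
      ring
    · rw [if_neg (by omega), if_neg (by omega)]
      have hy : i % (2 * m) = i := Int.emod_eq_of_lt (by omega) (by omega)
      rw [swapFun, hy, if_neg (by omega), if_neg (by omega)]

/-- The group `CT_∞` does not have finite width with respect to the horizontal class
transpositions: for every `n` there is an element of `CT_∞` which is not a product of `n` or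
fewer horizontal class transpositions. -/
theorem result (n : ℕ) :
    ∃ g ∈ CTinf, ∀ l : List (Equiv.Perm ℤ), (∀ σ ∈ l, σ ∈ horizontal) → l.length ≤ n →
      l.prod ≠ g := by
  obtain ⟨g, hg, hgi⟩ := exists_reversal ((3 : ℤ) ^ n + 1) (3 ^ n + 1) (by push_cast; rfl)
  refine ⟨g, hg, fun l hl hn hlg => ?_⟩
  obtain ⟨S, hS, hx⟩ := displacements l hl
  rw [hlg] at hx
  have hsub : (Finset.range (3 ^ n + 1)).image
      (fun i : ℕ => 2 * ((3 : ℤ) ^ n + 1) - 1 - 2 * (i : ℤ)) ⊆ S := by
    intro y hy
    obtain ⟨i, hi, rfl⟩ := Finset.mem_image.1 hy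
    rw [Finset.mem_range] at hi
    have hi' : (i : ℤ) < (3 : ℤ) ^ n + 1 := by exact_mod_cast hi
    have := hx (i : ℤ)
    rw [hgi i (by omega) hi', if_pos (by push_cast; exact hi')] at this
    convert this using 1
    ring
  have hcard := Finset.card_le_card hsub
  rw [Finset.card_image_of_injective _ (fun a b h => by simpa using h), Finset.card_range] at hcard
  have : 3 ^ l.length ≤ 3 ^ n := Nat.pow_le_pow_right (by norm_num) hn
  omega

end Pool.Agent.Results.MP_9704e3_al.InfiniteWidth
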